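import Pool.Agent.Idem.Main

/-!
Idempotent Boolean matrices: the estimates of `Pool.Agent.Idem` with an exponentially small
error in place of `δ`.
-/

set_option autoImplicit false
open Finset Filter

namespace Pool.Agent.Y415.ID

open IdemCount

/-- polynomial times exponential decay beats a slower exponential -/
lemma decayE (a : ℕ) (C q ρ : ℝ) (hq0 : 0 ≤ q) (hq : q < ρ) :
    ∃ n0 : ℕ, ∀ n ≥ n0, C * (n : ℝ) ^ a * q ^ n ≤ ρ ^ n := by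
  have hρ : 0 < ρ := lt_of_le_of_lt hq0 hq
  obtain ⟨n0, h⟩ := decay a C (q / ρ) (by positivity) ((div_lt_one hρ).2 hq) 1 one_pos
  refine ⟨n0, fun n hn => ?_⟩
  have h1 := h n hn
  rw [div_pow] at h1
  have h2 : 0 < ρ ^ n := by positivity
  calc C * (n : ℝ) ^ a * q ^ n = (C * (n : ℝ) ^ a * (q ^ n / ρ ^ n)) * ρ ^ n := by
        field_simp
    _ ≤ 1 * ρ ^ n := mul_le_mul_of_nonneg_right h1 h2.le
    _ = ρ ^ n := one_mul _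

/-- General principle: removing `k` vertices and paying `2^(c n)` with `c < k/2` is
negligible. -/
theorem master (f_lower : ∀ n : ℕ, (2 : ℝ) ^ ((n : ℝ) ^ 2 / 4 + 2 * n) / (n + 1) ≤ f n)
    (f_upper : ∀ n : ℕ, f n ≤ 4 * (2 : ℝ) ^ ((n : ℝ) ^ 2 / 4 + 2 * n))
    (k a : ℕ) (C c : ℝ) (hk : 1 ≤ k) (hC : 0 ≤ C) (hc : c - (k : ℝ) / 2 ≤ -(1 / 5000))
    (ρ : ℝ) (hρ : (2 : ℝ) ^ (-(1 / 5000) : ℝ) < ρ) :
    ∃ n0 : ℕ, ∀ n ≥ n0, ∀ K : ℝ, 0 ≤ K → ∀ x : ℕ → ℕ, (∀ m < n, (x m : ℝ) ≤ K * f m) →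
      C * (n : ℝ) ^ a * (2 : ℝ) ^ (c * n) * (x (n - k) : ℝ) ≤ ρ ^ n * K * f n := by
  obtain ⟨r, hr⟩ : ∃ r : ℝ, r = (2 : ℝ) ^ (c - (k : ℝ) / 2) := ⟨_, rfl⟩
  have hr0 : 0 < r := by rw [hr]; positivity
  have hr1 : r < ρ := by
    rw [hr]
    exact lt_of_le_of_lt (Real.rpow_le_rpow_of_exponent_le (by norm_num) hc) hρ
  obtain ⟨B, hB⟩ : ∃ B : ℝ, B = 4 * C * (2 : ℝ) ^ ((k : ℝ) ^ 2 / 4 - 2 * k) := ⟨_, rfl⟩
  have hB0 : 0 ≤ B := by rw [hB]; positivity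
  obtain ⟨n1, hn1'⟩ := decayE (a + 1) (2 * B) r ρ hr0.le hr1
  have hn1 : ∀ n ≥ n1, (2 * B) * ((n : ℝ) ^ (a + 1) * r ^ n) ≤ ρ ^ n := by
    intro n hn
    rw [← mul_assoc]
    exact hn1' n hn
  clear hn1'
  refine ⟨max n1 k, fun n hn K hK x hx => ?_⟩
  have hnk : k ≤ n := le_trans (le_max_right _ _) hn
  have hn1' := hn1 n (le_trans (le_max_left _ _) hn)
  have hnpos : 1 ≤ n := le_trans hk hnk
  have hnR : (1 : ℝ) ≤ n := by exact_mod_cast hnpos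
  have hx1 : (x (n - k) : ℝ) ≤ K * (4 * (2 : ℝ) ^ (((n - k : ℕ) : ℝ) ^ 2 / 4 + 2 * ((n - k : ℕ) : ℝ))) :=
    le_trans (hx (n - k) (by omega)) (mul_le_mul_of_nonneg_left (f_upper _) hK)
  rw [Nat.cast_sub hnk] at hx1
  have hfl : (2 : ℝ) ^ ((n : ℝ) ^ 2 / 4 + 2 * n) ≤ f n * (n + 1) := by
    have := f_lower n
    rwa [div_le_iff₀ (by positivity)] at this
  have hf0 : 0 ≤ f n := by
    have h1 : 0 < (2 : ℝ) ^ ((n : ℝ) ^ 2 / 4 + 2 * n) / (n + 1) := by positivity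
    exact (h1.le).trans (f_lower n)
  have hpow : (2 : ℝ) ^ (c * n) * (2 : ℝ) ^ (((n : ℝ) - k) ^ 2 / 4 + 2 * ((n : ℝ) - k)) =
      (2 : ℝ) ^ ((k : ℝ) ^ 2 / 4 - 2 * k) * r ^ n * (2 : ℝ) ^ ((n : ℝ) ^ 2 / 4 + 2 * n) := by
    have hrn : r ^ n = (2 : ℝ) ^ ((c - (k : ℝ) / 2) * n) := by
      rw [Real.rpow_mul (by norm_num), Real.rpow_natCast, hr]
    rw [hrn, ← Real.rpow_add (by norm_num),
      ← Real.rpow_add (by norm_num), ← Real.rpow_add (by norm_num)]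
    congr 1
    ring
  calc C * (n : ℝ) ^ a * (2 : ℝ) ^ (c * n) * (x (n - k) : ℝ)
      ≤ C * (n : ℝ) ^ a * (2 : ℝ) ^ (c * n) *
        (K * (4 * (2 : ℝ) ^ (((n : ℝ) - k) ^ 2 / 4 + 2 * ((n : ℝ) - k)))) :=
        mul_le_mul_of_nonneg_left hx1 (by positivity)
    _ = K * (4 * C) * (n : ℝ) ^ a *
        ((2 : ℝ) ^ (c * n) * (2 : ℝ) ^ (((n : ℝ) - k) ^ 2 / 4 + 2 * ((n : ℝ) - k))) := by ring
    _ = K * B * (n : ℝ) ^ a * r ^ n * (2 : ℝ) ^ ((n : ℝ) ^ 2 / 4 + 2 * n) := by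
        rw [hpow, hB]; ring
    _ ≤ K * B * (n : ℝ) ^ a * r ^ n * (f n * (n + 1)) :=
        mul_le_mul_of_nonneg_left hfl (by positivity)
    _ ≤ K * B * (n : ℝ) ^ a * r ^ n * (f n * (2 * n)) := by
        refine mul_le_mul_of_nonneg_left (mul_le_mul_of_nonneg_left (by linarith) hf0)
          (by positivity)
    _ = ((2 * B) * ((n : ℝ) ^ (a + 1) * r ^ n)) * (K * f n) := by ring
    _ ≤ ρ ^ n * (K * f n) := mul_le_mul_of_nonneg_right hn1' (by positivity)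
    _ = ρ ^ n * K * f n := by ring

theorem bound_B_gen (f_lower : ∀ n : ℕ, (2 : ℝ) ^ ((n : ℝ) ^ 2 / 4 + 2 * n) / (n + 1) ≤ f n)
    (f_upper : ∀ n : ℕ, f n ≤ 4 * (2 : ℝ) ^ ((n : ℝ) ^ 2 / 4 + 2 * n))
    (k B : ℕ) (hk : 1 ≤ k) (E : ℕ → ℕ) (c : ℝ) (hE : ∀ n, (E n : ℝ) + n ≤ c * n)
    (hc : c - (k : ℝ) / 2 ≤ -(1 / 5000))
    (ρ : ℝ) (hρ : (2 : ℝ) ^ (-(1 / 5000) : ℝ) < ρ) :
    ∃ n0 : ℕ, ∀ n ≥ n0, ∀ K : ℝ, 0 ≤ K → ∀ x : ℕ → ℕ, (∀ m < n, (x m : ℝ) ≤ K * f m) →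
      (((n.choose k * 2 ^ n) * (x (n - k) * (2 ^ (E n) * B)) : ℕ) : ℝ) ≤ ρ ^ n * K * f n := by
  obtain ⟨n0, hn0⟩ := master f_lower f_upper k k (B : ℝ) c hk (by positivity) hc ρ hρ
  refine ⟨n0, fun n hn K hK x hx => le_trans ?_ (hn0 n hn K hK x hx)⟩
  have h1 : ((n.choose k : ℕ) : ℝ) ≤ (n : ℝ) ^ k := by
    exact_mod_cast Nat.choose_le_pow n k
  have h2 : (2 : ℝ) ^ n * (2 : ℝ) ^ (E n) ≤ (2 : ℝ) ^ (c * n) := by
    rw [← Real.rpow_natCast, ← Real.rpow_natCast, ← Real.rpow_add (by norm_num)]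
    exact Real.rpow_le_rpow_of_exponent_le (by norm_num) (by linarith [hE n])
  push_cast
  calc ((n.choose k : ℕ) : ℝ) * 2 ^ n * ((x (n - k) : ℝ) * (2 ^ (E n) * (B : ℝ)))
      = ((n.choose k : ℕ) : ℝ) * ((2 : ℝ) ^ n * (2 : ℝ) ^ (E n)) * ((B : ℝ) * (x (n - k) : ℝ)) := by ring
    _ ≤ (n : ℝ) ^ k * (2 : ℝ) ^ (c * n) * ((B : ℝ) * (x (n - k) : ℝ)) :=
        mul_le_mul_of_nonneg_right (mul_le_mul h1 h2 (by positivity) (by positivity)) (by positivity)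
    _ = (B : ℝ) * (n : ℝ) ^ k * (2 : ℝ) ^ (c * n) * (x (n - k) : ℝ) := by ring

/-- (class B), from `master` with k = 4000, c = 1999, a = 4000. -/
theorem bound_B (f_lower : ∀ n : ℕ, (2 : ℝ) ^ ((n : ℝ) ^ 2 / 4 + 2 * n) / (n + 1) ≤ f n)
    (f_upper : ∀ n : ℕ, f n ≤ 4 * (2 : ℝ) ^ ((n : ℝ) ^ 2 / 4 + 2 * n))
    (ρ : ℝ) (hρ : (2 : ℝ) ^ (-(1 / 5000) : ℝ) < ρ) :
    ∃ n0 : ℕ, ∀ n ≥ n0, ∀ K : ℝ, 0 ≤ K → ∀ x : ℕ → ℕ, (∀ m < n, (x m : ℝ) ≤ K * f m) →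
      (((n.choose 4000 * 2 ^ n) * (x (n - 4000) *
        (2 ^ (4000 * (999 * n / 2000)) * (2 ^ (4000 * 32) * 2 ^ (4000 * 4000) * 2 ^ 4000))) : ℕ) : ℝ)
        ≤ ρ ^ n * K * f n := by
  obtain ⟨k, hk⟩ : ∃ k : ℕ, k = 4000 := ⟨_, rfl⟩
  obtain ⟨B, hB⟩ : ∃ B : ℕ, B = 2 ^ (4000 * 32) * 2 ^ (4000 * 4000) * 2 ^ 4000 := ⟨_, rfl⟩
  rw [← hB, ← hk]
  refine bound_B_gen f_lower f_upper k B (by omega) (fun n => k * (999 * n / 2000)) 1999 ?_ ?_ ρ hρ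
  · intro n
    have h : k * (999 * n / 2000) + n ≤ 1999 * n := by
      rw [hk]; omega
    exact_mod_cast h
  · rw [hk]; norm_num

theorem bound_C_gen (f_lower : ∀ n : ℕ, (2 : ℝ) ^ ((n : ℝ) ^ 2 / 4 + 2 * n) / (n + 1) ≤ f n)
    (f_upper : ∀ n : ℕ, f n ≤ 4 * (2 : ℝ) ^ ((n : ℝ) ^ 2 / 4 + 2 * n))
    (k B : ℕ)
    (ρ : ℝ) (hρ : (2 : ℝ) ^ (-(1 / 5000) : ℝ) < ρ) :
    ∃ n0 : ℕ, ∀ n ≥ n0, ∀ K : ℝ, 0 ≤ K → ∀ x : ℕ → ℕ, (∀ m < n, (x m : ℝ) ≤ K * f m) →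
      (((n * n * (n.choose k * n.choose k)) * (x (n - 2) *
        (rootC n * B)) : ℕ) : ℝ)
        ≤ ρ ^ n * K * f n := by
  obtain ⟨n0, hn0⟩ := master f_lower f_upper 2 (2 + 2 * k) (16 * (B : ℝ)) (4999 / 5000)
    (by norm_num) (by positivity) (by norm_num) ρ hρ
  refine ⟨n0, fun n hn K hK x hx => le_trans ?_ (hn0 n hn K hK x hx)⟩
  have h1 : ((n.choose k : ℕ) : ℝ) ≤ (n : ℝ) ^ k := by
    exact_mod_cast Nat.choose_le_pow n k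
  have h2 : (rootC n : ℝ) ≤ 16 * (2 : ℝ) ^ ((4999 / 5000 : ℝ) * n) := by
    have h3 : (rootC n : ℝ) ≤ (2 : ℝ) ^ ((4999 * (n : ℝ) + 20000) / 5000) := by
      unfold rootC
      exact Nat.floor_le (by positivity)
    refine h3.trans (le_of_eq ?_)
    have h16 : (16 : ℝ) = (2 : ℝ) ^ (4 : ℝ) := by
      have : (2 : ℝ) ^ (4 : ℝ) = (2 : ℝ) ^ (4 : ℕ) := by
        rw [← Real.rpow_natCast]; norm_num
      rw [this]; norm_num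
    rw [h16, ← Real.rpow_add (by norm_num)]
    congr 1
    ring
  push_cast
  calc (n : ℝ) * n * (((n.choose k : ℕ) : ℝ) * ((n.choose k : ℕ) : ℝ)) *
        ((x (n - 2) : ℝ) * ((rootC n : ℝ) * (B : ℝ)))
      = (n : ℝ) * n * (((n.choose k : ℕ) : ℝ) * ((n.choose k : ℕ) : ℝ)) * (rootC n : ℝ) *
        ((B : ℝ) * (x (n - 2) : ℝ)) := by ring
    _ ≤ (n : ℝ) * n * ((n : ℝ) ^ k * (n : ℝ) ^ k) * (16 * (2 : ℝ) ^ ((4999 / 5000 : ℝ) * n)) *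
        ((B : ℝ) * (x (n - 2) : ℝ)) := by
        refine mul_le_mul_of_nonneg_right (mul_le_mul ?_ h2 (by positivity) (by positivity))
          (by positivity)
        exact mul_le_mul_of_nonneg_left (mul_le_mul h1 h1 (by positivity) (by positivity))
          (by positivity)
    _ = 16 * (B : ℝ) * (n : ℝ) ^ (2 + 2 * k) * (2 : ℝ) ^ ((4999 / 5000 : ℝ) * n) *
        (x (n - 2) : ℝ) := by ring

/-- (class C), from `master` with k = 2, c = 4999/5000, a = 2 + 2 * 4000. -/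
theorem bound_C (f_lower : ∀ n : ℕ, (2 : ℝ) ^ ((n : ℝ) ^ 2 / 4 + 2 * n) / (n + 1) ≤ f n)
    (f_upper : ∀ n : ℕ, f n ≤ 4 * (2 : ℝ) ^ ((n : ℝ) ^ 2 / 4 + 2 * n))
    (ρ : ℝ) (hρ : (2 : ℝ) ^ (-(1 / 5000) : ℝ) < ρ) :
    ∃ n0 : ℕ, ∀ n ≥ n0, ∀ K : ℝ, 0 ≤ K → ∀ x : ℕ → ℕ, (∀ m < n, (x m : ℝ) ≤ K * f m) →
      (((n * n * (n.choose 4000 * n.choose 4000)) * (x (n - 2) *
        (rootC n * (2 ^ (2 * 32) * 2 ^ (2 * 2) * 2 ^ 2))) : ℕ) : ℝ)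
        ≤ ρ ^ n * K * f n :=
  bound_C_gen f_lower f_upper 4000 _ ρ hρ

/-- (class A): from `master` with k = 1, c = 9/20, a = 1. -/
theorem bound_A
    (ρ : ℝ) (hρ : (2 : ℝ) ^ (-(1 / 5000) : ℝ) < ρ) :
    ∃ n0 : ℕ, ∀ n ≥ n0, ∀ K : ℝ, 0 ≤ K → ∀ x : ℕ → ℕ, (∀ m < n, (x m : ℝ) ≤ K * f m) →
      ((n * (x (n - 1) * ((small n 16).card * (2 ^ (n / 16) * 4))) : ℕ) : ℝ)
        ≤ ρ ^ n * K * f n := by
  obtain ⟨n0, h⟩ := master Fn.f_lower Fn.f_upper 1 1 4 (9 / 20) le_rfl (by norm_num) (by norm_num) ρ hρ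
  refine ⟨n0, fun n hn K hK x hx => (le_trans ?_ (h n hn K hK x hx))⟩
  have h1 := Sma.small16 n
  have h2 : (2 : ℝ) ^ (n / 16 : ℕ) ≤ (2 : ℝ) ^ ((1 / 16 : ℝ) * n) := by
    rw [← Real.rpow_natCast]
    apply Real.rpow_le_rpow_of_exponent_le (by norm_num)
    have : ((n / 16 : ℕ) : ℝ) ≤ (n : ℝ) / 16 := by
      have := @Nat.cast_div_le ℝ _ _ _ n 16
      simpa using this
    linarith
  have h3 : (2 : ℝ) ^ ((9 / 20 : ℝ) * n) =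
      (2 : ℝ) ^ ((3 / 16 + 1 / 5 : ℝ) * n) * (2 : ℝ) ^ ((1 / 16 : ℝ) * n) := by
    rw [← Real.rpow_add (by norm_num)]
    congr 1
    ring
  rw [h3]
  push_cast
  have hn0 : (0 : ℝ) ≤ n := Nat.cast_nonneg n
  have hx0 : (0 : ℝ) ≤ x (n - 1) := Nat.cast_nonneg _
  calc (n : ℝ) * (x (n - 1) * ((small n 16).card * ((2 : ℝ) ^ (n / 16) * 4)))
      ≤ (n : ℝ) * (x (n - 1) * ((2 : ℝ) ^ ((3 / 16 + 1 / 5 : ℝ) * n) *
        ((2 : ℝ) ^ ((1 / 16 : ℝ) * n) * 4))) := by gcongr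
    _ = _ := by ring

/-- (class E2): from `master` with k = 1, c = 0.47, a = 2 + 4000. -/
theorem bound_E2
    (ρ : ℝ) (hρ : (2 : ℝ) ^ (-(1 / 5000) : ℝ) < ρ) :
    ∃ n0 : ℕ, ∀ n ≥ n0, ∀ K : ℝ, 0 ≤ K → ∀ x : ℕ → ℕ, (∀ m < n, (x m : ℝ) ≤ K * f m) →
      (((n * n * n.choose 4000) * (x (n - 1) *
      (((small n 512).card * 2 ^ (n - 999 * n / 2000 - n / 16 + 1)) * (2 ^ 32 * 4))) : ℕ) : ℝ)
        ≤ ρ ^ n * K * f n := by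
  generalize 4000 = A
  obtain ⟨n0, h⟩ := master Fn.f_lower Fn.f_upper 1 (2 + A) (2 ^ 37) (1 - 999 / 2000 - 1 / 16 + (7 / 512 + 1 / 64))
    le_rfl (by norm_num) (by norm_num) ρ hρ
  refine ⟨n0, fun n hn K hK x hx => (le_trans ?_ (h n hn K hK x hx))⟩
  have h1 := Sma.small512 n
  have h2 : (2 : ℝ) ^ (n - 999 * n / 2000 - n / 16 + 1 : ℕ) ≤
      (2 : ℝ) ^ ((1 - 999 / 2000 - 1 / 16 : ℝ) * n) * 2 ^ 3 := by
    rw [← Real.rpow_natCast, ← Real.rpow_natCast 2 3, ← Real.rpow_add (by norm_num)]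
    apply Real.rpow_le_rpow_of_exponent_le (by norm_num)
    have e1 : (999 * n / 2000) * 2000 + 1999 ≥ 999 * n := by omega
    have e2 : (n / 16) * 16 + 15 ≥ n := by omega
    have e3 : (n - 999 * n / 2000 - n / 16 + 1) + 999 * n / 2000 + n / 16 = n + 1 := by omega
    have e1' : ((999 * n / 2000 : ℕ) : ℝ) * 2000 + 1999 ≥ 999 * n := by exact_mod_cast e1
    have e2' : ((n / 16 : ℕ) : ℝ) * 16 + 15 ≥ n := by exact_mod_cast e2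
    have e3' : ((n - 999 * n / 2000 - n / 16 + 1 : ℕ) : ℝ) + ((999 * n / 2000 : ℕ) : ℝ) +
        ((n / 16 : ℕ) : ℝ) = n + 1 := by exact_mod_cast e3
    push_cast at e3' ⊢
    linarith
  have h3 : (2 : ℝ) ^ ((1 - 999 / 2000 - 1 / 16 + (7 / 512 + 1 / 64) : ℝ) * n) =
      (2 : ℝ) ^ ((7 / 512 + 1 / 64 : ℝ) * n) * (2 : ℝ) ^ ((1 - 999 / 2000 - 1 / 16 : ℝ) * n) := by
    rw [← Real.rpow_add (by norm_num)]
    congr 1
    ring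
  have h4 : ((n.choose A : ℕ) : ℝ) ≤ (n : ℝ) ^ A := by
    exact_mod_cast Nat.choose_le_pow n A
  rw [h3]
  push_cast
  have hn0 : (0 : ℝ) ≤ n := Nat.cast_nonneg n
  have hx0 : (0 : ℝ) ≤ x (n - 1) := Nat.cast_nonneg _
  calc (n : ℝ) * n * (n.choose A) * (x (n - 1) *
        (((small n 512).card * (2 : ℝ) ^ (n - 999 * n / 2000 - n / 16 + 1)) * 17179869184))
      ≤ (n : ℝ) * n * (n : ℝ) ^ A * (x (n - 1) *
        (((2 : ℝ) ^ ((7 / 512 + 1 / 64 : ℝ) * n) *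
          ((2 : ℝ) ^ ((1 - 999 / 2000 - 1 / 16 : ℝ) * n) * 2 ^ 3)) * 17179869184)) := by
        gcongr
    _ = 2 ^ 37 * (n : ℝ) ^ (2 + A) * ((2 : ℝ) ^ ((7 / 512 + 1 / 64 : ℝ) * n) *
          (2 : ℝ) ^ ((1 - 999 / 2000 - 1 / 16 : ℝ) * n)) * x (n - 1) := by
      rw [pow_add (n : ℝ) 2 A]
      ring

/-- (class E3): from `master` with k = 1, c = 1 - 999/2000 - 1/512, a = 3 + 4000. -/
theorem bound_E3
    (ρ : ℝ) (hρ : (2 : ℝ) ^ (-(1 / 5000) : ℝ) < ρ) :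
    ∃ n0 : ℕ, ∀ n ≥ n0, ∀ K : ℝ, 0 ≤ K → ∀ x : ℕ → ℕ, (∀ m < n, (x m : ℝ) ≤ K * f m) →
      (((n * n * n * n.choose 4000) * (x (n - 1) *
      ((2 ^ (n - 999 * n / 2000 - n / 512 + 1)) * (2 ^ 32 * 4))) : ℕ) : ℝ)
        ≤ ρ ^ n * K * f n := by
  generalize 4000 = A
  obtain ⟨n0, h⟩ := master Fn.f_lower Fn.f_upper 1 (3 + A) (2 ^ 37) (1 - 999 / 2000 - 1 / 512)
    le_rfl (by norm_num) (by norm_num) ρ hρ
  refine ⟨n0, fun n hn K hK x hx => (le_trans ?_ (h n hn K hK x hx))⟩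
  have h2 : (2 : ℝ) ^ (n - 999 * n / 2000 - n / 512 + 1 : ℕ) ≤
      (2 : ℝ) ^ ((1 - 999 / 2000 - 1 / 512 : ℝ) * n) * 2 ^ 3 := by
    rw [← Real.rpow_natCast, ← Real.rpow_natCast 2 3, ← Real.rpow_add (by norm_num)]
    apply Real.rpow_le_rpow_of_exponent_le (by norm_num)
    have e1 : (999 * n / 2000) * 2000 + 1999 ≥ 999 * n := by omega
    have e2 : (n / 512) * 512 + 511 ≥ n := by
      have h5 := Nat.div_add_mod n 512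
      have h6 := Nat.mod_lt n (show 0 < 512 by norm_num)
      linarith
    have e3 : (n - 999 * n / 2000 - n / 512 + 1) + 999 * n / 2000 + n / 512 = n + 1 := by omega
    have e1' : ((999 * n / 2000 : ℕ) : ℝ) * 2000 + 1999 ≥ 999 * n := by exact_mod_cast e1
    have e2' : ((n / 512 : ℕ) : ℝ) * 512 + 511 ≥ n := by exact_mod_cast e2
    have e3' : ((n - 999 * n / 2000 - n / 512 + 1 : ℕ) : ℝ) + ((999 * n / 2000 : ℕ) : ℝ) +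
        ((n / 512 : ℕ) : ℝ) = n + 1 := by exact_mod_cast e3
    push_cast at e3' ⊢
    linarith
  have h4 : ((n.choose A : ℕ) : ℝ) ≤ (n : ℝ) ^ A := by
    exact_mod_cast Nat.choose_le_pow n A
  push_cast
  have hn0 : (0 : ℝ) ≤ n := Nat.cast_nonneg n
  have hx0 : (0 : ℝ) ≤ x (n - 1) := Nat.cast_nonneg _
  calc (n : ℝ) * n * n * (n.choose A) * (x (n - 1) *
        ((2 : ℝ) ^ (n - 999 * n / 2000 - n / 512 + 1) * 17179869184))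
      ≤ (n : ℝ) * n * n * (n : ℝ) ^ A * (x (n - 1) *
        (((2 : ℝ) ^ ((1 - 999 / 2000 - 1 / 512 : ℝ) * n) * 2 ^ 3) * 17179869184)) := by
        gcongr
    _ = 2 ^ 37 * (n : ℝ) ^ (3 + A) * (2 : ℝ) ^ ((1 - 999 / 2000 - 1 / 512 : ℝ) * n) *
          x (n - 1) := by
      rw [pow_add (n : ℝ) 3 A]
      ring

theorem theta_small (ρ : ℝ) (hρ : (2 : ℝ) ^ (-(1 / 5000) : ℝ) < ρ) :
    ∃ n0 : ℕ, ∀ n ≥ n0, theta n ≤ ρ ^ n := by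
  obtain ⟨n0, hn0⟩ := decayE 0 2 ((2 : ℝ) ^ (-(17 / 512) : ℝ)) ρ (by positivity)
    (lt_of_le_of_lt (Real.rpow_le_rpow_of_exponent_le (by norm_num) (by norm_num)) hρ)
  refine ⟨n0, fun n hn => le_trans ?_ (hn0 n hn)⟩
  unfold theta
  have h1 : (2 : ℝ) ^ ((n : ℝ) / 16 - 1) ≤ (2 : ℝ) ^ (n / 16) := by
    rw [← Real.rpow_natCast]
    refine Real.rpow_le_rpow_of_exponent_le (by norm_num) ?_
    have := Nat.div_add_mod n 16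
    have h2 := Nat.mod_lt n (show 0 < 16 by norm_num)
    have h3 : (n : ℝ) = 16 * ((n / 16 : ℕ) : ℝ) + ((n % 16 : ℕ) : ℝ) := by exact_mod_cast this.symm
    have h4 : ((n % 16 : ℕ) : ℝ) ≤ 16 := by exact_mod_cast h2.le
    linarith
  calc ((small n 512).card : ℝ) / 2 ^ (n / 16)
      ≤ (2 : ℝ) ^ ((7 / 512 + 1 / 64 : ℝ) * n) / (2 : ℝ) ^ ((n : ℝ) / 16 - 1) := by
        refine div_le_div₀ (by positivity) (Sma.small512 n) (by positivity) h1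
    _ = 2 * (n : ℝ) ^ 0 * ((2 : ℝ) ^ (-(17 / 512) : ℝ)) ^ n := by
        rw [← Real.rpow_natCast ((2 : ℝ) ^ (-(17 / 512) : ℝ)), ← Real.rpow_mul (by norm_num), pow_zero, mul_one,
          ← Real.rpow_sub (by norm_num)]
        nth_rewrite 2 [show (2 : ℝ) = (2 : ℝ) ^ (1 : ℝ) by norm_num]
        rw [← Real.rpow_add (by norm_num)]
        congr 1
        ring

theorem half_lt (ρ : ℝ) (hρ : (2 : ℝ) ^ (-(1 / 5000) : ℝ) < ρ) : 1 / 2 < ρ := by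
  refine lt_of_le_of_lt ?_ hρ
  have h : (2 : ℝ) ^ (-1 : ℝ) ≤ (2 : ℝ) ^ (-(1 / 5000) : ℝ) :=
    Real.rpow_le_rpow_of_exponent_le (by norm_num) (by norm_num)
  refine le_trans (le_of_eq ?_) h
  rw [Real.rpow_neg_one]
  norm_num

theorem hole_small (ρ : ℝ) (hρ : (2 : ℝ) ^ (-(1 / 5000) : ℝ) < ρ) : ∃ n0 : ℕ, ∀ n ≥ n0,
    (((2 ^ n * (2 ^ n * 2 ^ n)) * (2 ^ (n ^ 2 / 4 - n ^ 2 / 262144) * 2 ^ (2 * n + 4)) : ℕ) : ℝ) ≤ ρ ^ n * f n := by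
  obtain ⟨n0, hn0⟩ := decayE 1 (64 * 2) (1 / 2) ρ (by norm_num) (half_lt ρ hρ)
  refine ⟨max n0 (262144 * 4 + 1), fun n hn => ?_⟩
  have hn1 := hn0 n (le_trans (le_max_left _ _) hn)
  have hn2 : 262144 * 4 + 1 ≤ n := le_trans (le_max_right _ _) hn
  have h1 : ((n ^ 2 / 4 - n ^ 2 / 262144 : ℕ) : ℝ) ≤ (n : ℝ) ^ 2 / 4 - (n : ℝ) ^ 2 / 262144 + 1 := by
    have hle : n ^ 2 / 262144 ≤ n ^ 2 / 4 := Nat.div_le_div_left (by norm_num) (by norm_num)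
    rw [Nat.cast_sub hle]
    have e1 : ((n ^ 2 / 4 : ℕ) : ℝ) ≤ (n : ℝ) ^ 2 / 4 := by
      have := Nat.cast_div_le (α := ℝ) (m := n ^ 2) (n := 4)
      push_cast at this; exact this
    have e2 : (n : ℝ) ^ 2 / 262144 - 1 ≤ ((n ^ 2 / 262144 : ℕ) : ℝ) := by
      have h3 := Nat.div_add_mod (n ^ 2) 262144
      have h4 := Nat.mod_lt (n ^ 2) (show 0 < 262144 by norm_num)
      have h5 : ((n : ℝ)) ^ 2 = 262144 * ((n ^ 2 / 262144 : ℕ) : ℝ) + ((n ^ 2 % 262144 : ℕ) : ℝ) := by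
        exact_mod_cast h3.symm
      have h6 : ((n ^ 2 % 262144 : ℕ) : ℝ) ≤ 262144 := by exact_mod_cast h4.le
      linarith
    linarith
  have h2 : (4 : ℝ) * n ≤ (n : ℝ) ^ 2 / 262144 := by
    have : (262144 * 4 + 1 : ℝ) ≤ n := by exact_mod_cast hn2
    rw [le_div_iff₀ (by norm_num)]
    nlinarith
  have hfl := f_lower n
  have hpos : (0 : ℝ) < (n : ℝ) + 1 := by positivity
  have h7 : (((2 ^ n * (2 ^ n * 2 ^ n)) * (2 ^ (n ^ 2 / 4 - n ^ 2 / 262144) * 2 ^ (2 * n + 4)) : ℕ) : ℝ)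
      ≤ (2 : ℝ) ^ ((n : ℝ) ^ 2 / 4 + n + 5) := by
    push_cast
    rw [← pow_add, ← pow_add, ← pow_add, ← pow_add, ← Real.rpow_natCast]
    refine Real.rpow_le_rpow_of_exponent_le (by norm_num) ?_
    push_cast
    push_cast at h1
    linarith
  have h8 : (2 : ℝ) ^ ((n : ℝ) ^ 2 / 4 + n + 5) = 32 * (1 / 2) ^ n * (2 : ℝ) ^ ((n : ℝ) ^ 2 / 4 + 2 * n) := by
    rw [show (n : ℝ) ^ 2 / 4 + n + 5 = ((n : ℝ) ^ 2 / 4 + 2 * n) + 5 + (-(n : ℝ)) by ring,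
      Real.rpow_add (by norm_num), Real.rpow_add (by norm_num), Real.rpow_neg (by norm_num),
      Real.rpow_natCast, one_div, inv_pow]
    norm_num
    ring
  have h9 : (2 : ℝ) ^ ((n : ℝ) ^ 2 / 4 + 2 * n) ≤ (n + 1) * f n := by
    rw [div_le_iff₀ hpos] at hfl; linarith
  calc _ ≤ (2 : ℝ) ^ ((n : ℝ) ^ 2 / 4 + n + 5) := h7
    _ = 32 * (1 / 2) ^ n * (2 : ℝ) ^ ((n : ℝ) ^ 2 / 4 + 2 * n) := h8
    _ ≤ 32 * (1 / 2) ^ n * ((n + 1) * f n) := by gcongr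
    _ ≤ (64 * 2 * (n : ℝ) ^ 1 * (1 / 2) ^ n) * f n := by
        have h10 : (1 : ℝ) ≤ n := by exact_mod_cast (by omega : 1 ≤ n)
        have h11 := f_pos n
        have h12 : (0 : ℝ) ≤ (1 / 2) ^ n * f n := by positivity
        nlinarith
    _ ≤ ρ ^ n * f n := by
        refine mul_le_mul_of_nonneg_right hn1 (f_pos n).le

/-- one step estimate -/
theorem step (ρ : ℝ) (hρ : (2 : ℝ) ^ (-(1 / 5000) : ℝ) < ρ) : ∃ n0 : ℕ, ∀ n ≥ n0, ∀ K : ℝ, 0 ≤ K →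
    (∀ m < n, (xn m : ℝ) ≤ K * f m) →
    (xn n : ℝ) ≤ (5 * ρ ^ n * K + ρ ^ n + (1 + 2 * ρ ^ n) * (1 + ρ ^ n)) * f n := by
  have hρ0 : 0 < ρ := lt_trans (by norm_num) (half_lt ρ hρ)
  obtain ⟨nA, hA⟩ := bound_A ρ hρ
  obtain ⟨nB, hB⟩ := bound_B Fn.f_lower Fn.f_upper ρ hρ
  obtain ⟨nC, hC⟩ := bound_C Fn.f_lower Fn.f_upper ρ hρ
  obtain ⟨nE2, hE2⟩ := bound_E2 ρ hρ
  obtain ⟨nE3, hE3⟩ := bound_E3 ρ hρ
  obtain ⟨nH, hH⟩ := hole_small ρ hρ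
  obtain ⟨nT, hT⟩ := theta_small ρ hρ
  refine ⟨nA + nB + nC + nE2 + nE3 + nH + nT + 500000, ?_⟩
  intro n hn K hK hx
  have hδ : 0 < ρ ^ n := by positivity
  have a1 := hA n (by omega) K hK xn hx
  have a2 := hB n (by omega) K hK xn hx
  have a3 := hC n (by omega) K hK xn hx
  have a4 := hE2 n (by omega) K hK xn hx
  have a5 := hE3 n (by omega) K hK xn hx
  have a6 := hH n (by omega)
  have a7 := hT n (by omega)
  have b1 : ((clA n).ncard : ℝ) ≤ ρ ^ n * K * f n := le_trans (by exact_mod_cast card_clA n) a1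
  have b2 : ((clB n 4000).ncard : ℝ) ≤ ρ ^ n * K * f n :=
    le_trans (Nat.cast_le.2 (card_clB n 4000 (by omega))) a2
  have b3 : ((clC n 4000).ncard : ℝ) ≤ ρ ^ n * K * f n :=
    le_trans (Nat.cast_le.2 (card_clC n 4000 (by omega))) a3
  have b4 : ((clE2 n 4000).ncard : ℝ) ≤ ρ ^ n * K * f n :=
    le_trans (Nat.cast_le.2 (card_clE2 n 4000 (by omega) (by omega))) a4
  have b5 : ((clE3 n 4000).ncard : ℝ) ≤ ρ ^ n * K * f n :=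
    le_trans (Nat.cast_le.2 (card_clE3 n 4000 (by omega) (by omega))) a5
  have b6 : ((({p | p ∈ clG n 4000 ∧ ∃ V₁, Side p V₁ ∧ ¬ NoHole p V₁} : Set (Str (Fin n))).ncard : ℕ) : ℝ) ≤ ρ ^ n * f n :=
    le_trans (Nat.cast_le.2 (card_hole (n := n) 4000)) a6
  have b7 := card_good (n := n) 4000 (by omega)
  have hf := f_pos n
  have hθ := theta_nonneg n
  have b8 : (1 + 2 * theta n) * (1 + theta n) * f n ≤ (1 + 2 * ρ ^ n) * (1 + ρ ^ n) * f n := by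
    gcongr
  have hs : (xn n : ℝ) ≤ ((clA n).ncard : ℝ) + ((clB n 4000).ncard : ℝ) + ((clC n 4000).ncard : ℝ)
    + ((clE2 n 4000).ncard : ℝ) + ((clE3 n 4000).ncard : ℝ)
    + ((({p | p ∈ clG n 4000 ∧ ∀ V₁, Side p V₁ → NoHole p V₁} : Set (Str (Fin n))).ncard : ℕ) : ℝ)
    + ((({p | p ∈ clG n 4000 ∧ ∃ V₁, Side p V₁ ∧ ¬ NoHole p V₁} : Set (Str (Fin n))).ncard : ℕ) : ℝ) := by
    exact_mod_cast xn_split n
  calc (xn n : ℝ) ≤ _ := hs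
    _ ≤ ρ ^ n * K * f n + ρ ^ n * K * f n + ρ ^ n * K * f n + ρ ^ n * K * f n + ρ ^ n * K * f n +
        (1 + 2 * ρ ^ n) * (1 + ρ ^ n) * f n + ρ ^ n * f n := by
        have := b7.trans b8
        linarith
    _ = _ := by ring

/-- the upper bound -/
theorem xn_upper (ρ : ℝ) (hρ : (2 : ℝ) ^ (-(1 / 5000) : ℝ) < ρ) (hρ1 : ρ ≤ 1) :
    ∃ C : ℝ, 0 ≤ C ∧ ∃ n0 : ℕ, ∀ n ≥ n0, (xn n : ℝ) ≤ (1 + C * ρ ^ n) * f n := by
  obtain ⟨K, hK, hx⟩ := xn_bound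
  obtain ⟨n0, h⟩ := step ρ hρ
  have hρ0 : 0 < ρ := lt_trans (by norm_num) (half_lt ρ hρ)
  refine ⟨5 * K + 6, by positivity, n0, fun n hn => (h n hn K hK (fun m _ => hx m)).trans ?_⟩
  refine mul_le_mul_of_nonneg_right ?_ (f_pos n).le
  have h1 : ρ ^ n ≤ 1 := pow_le_one₀ hρ0.le hρ1
  have h2 : 0 < ρ ^ n := by positivity
  nlinarith

theorem idn_upper (ρ : ℝ) (hρ : (2 : ℝ) ^ (-(1 / 5000) : ℝ) < ρ) (hρ1 : ρ ≤ 1) :
    ∃ C : ℝ, 0 ≤ C ∧ ∃ n0 : ℕ, ∀ n ≥ n0, (idn n : ℝ) ≤ (1 + C * ρ ^ n) * f n := by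
  obtain ⟨C, hC, n1, h1⟩ := xn_upper ρ hρ hρ1
  obtain ⟨K, hK, hx⟩ := idn_bound
  obtain ⟨n2, h2⟩ := master Fn.f_lower Fn.f_upper 1 2 1 0 le_rfl (by norm_num) (by norm_num) ρ hρ
  refine ⟨C + K, by positivity, n1 + n2 + 1, ?_⟩
  intro n hn
  have a1 := h1 n (by omega)
  have a2 := h2 n (by omega) K hK idn (fun m _ => hx m)
  obtain ⟨m, rfl⟩ : ∃ m, n = m + 1 := ⟨n - 1, by omega⟩
  have a3 := idn_le m
  have a4 : (idn (m + 1) : ℝ) ≤ xn (m + 1) + ((m + 1 : ℕ) : ℝ) ^ 2 * idn m := by exact_mod_cast a3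
  simp only [zero_mul, Real.rpow_zero, one_mul, mul_one, Nat.add_sub_cancel] at a2
  calc (idn (m + 1) : ℝ) ≤ _ := a4
    _ ≤ (1 + C * ρ ^ (m + 1)) * f (m + 1) + ρ ^ (m + 1) * K * f (m + 1) := add_le_add a1 a2
    _ = _ := by ring

theorem idn_lower (ρ : ℝ) (hρ : (2 : ℝ) ^ (-(1 / 5000) : ℝ) < ρ) :
    ∃ n0 : ℕ, ∀ n ≥ n0, (1 - ρ ^ n) * f n ≤ (idn n : ℝ) := by
  obtain ⟨n0, hn0⟩ := decayE 2 96 ((2 : ℝ) ^ (-(1 / 5) : ℝ)) ρ (by positivity)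
    (lt_of_le_of_lt (Real.rpow_le_rpow_of_exponent_le (by norm_num) (by norm_num)) hρ)
  refine ⟨n0 + 1, fun n hn => ?_⟩
  have hρ0 : 0 < ρ := lt_trans (by norm_num) (half_lt ρ hρ)
  have hn1 : (1 : ℝ) ≤ n := by exact_mod_cast (by omega : 1 ≤ n)
  have hn : 16 * ((1 + 2 * (n : ℝ)) * (n + 1)) * (2 : ℝ) ^ (-(1 / 5 : ℝ) * n) ≤ ρ ^ n := by
    refine le_trans ?_ (hn0 n (by omega))
    rw [Real.rpow_mul (by norm_num), Real.rpow_natCast]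
    refine mul_le_mul_of_nonneg_right ?_ (by positivity)
    nlinarith
  have h1 : ∑ b ∈ range (n + 1), (n.choose b : ℝ) * (2 ^ b + 2 ^ (n - b) - 1)
        * (2 ^ (n - b) * 2 ^ (b * (n - b))
            - (2 * b * 3 ^ (n - b) * 2 ^ ((b - 1) * (n - b))
                + ((n - b : ℕ) : ℝ) * 2 ^ (n - b) * 2 ^ (b * (n - b - 1)))) ≤ (idn n : ℝ) := by
    exact_mod_cast Low.card_idem_ge n
  have h2 := Fn.diff_bound n _ rfl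
  have h3 := Fn.f_lower n
  have h4 : (1 + 2 * n) * (2 : ℝ) ^ ((n : ℝ) ^ 2 / 4 + 9 / 5 * n + 4) ≤ ρ ^ n * f n := by
    calc (1 + 2 * n) * (2 : ℝ) ^ ((n : ℝ) ^ 2 / 4 + 9 / 5 * n + 4)
        = (16 * ((1 + 2 * (n : ℝ)) * (n + 1)) * (2 : ℝ) ^ (-(1 / 5 : ℝ) * n)) *
          ((2 : ℝ) ^ ((n : ℝ) ^ 2 / 4 + 2 * n) / (n + 1)) := by
          have e : (2 : ℝ) ^ ((n : ℝ) ^ 2 / 4 + 9 / 5 * n + 4) =
              16 * (2 : ℝ) ^ (-(1 / 5 : ℝ) * n) * (2 : ℝ) ^ ((n : ℝ) ^ 2 / 4 + 2 * n) := by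
            rw [show (16 : ℝ) = (2 : ℝ) ^ (4 : ℝ) by norm_num, ← Real.rpow_add (by norm_num),
              ← Real.rpow_add (by norm_num)]
            congr 1; ring
          rw [e]
          field_simp
      _ ≤ ρ ^ n * f n := by
          apply mul_le_mul hn h3 (by positivity) (by positivity)
  linarith

/-- The relative error is exponentially small. -/
theorem rel_error (r : ℝ) (hr : (2 : ℝ) ^ (-(1 / 5000) : ℝ) < r) :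
    ∀ᶠ n : ℕ in atTop, |(idn n : ℝ) / f n - 1| ≤ r ^ n := by
  have hq1 : (2 : ℝ) ^ (-(1 / 5000) : ℝ) < 1 :=
    Real.rpow_lt_one_of_one_lt_of_neg (by norm_num) (by norm_num)
  obtain ⟨ρ, h1, h2⟩ := exists_between (lt_min hr hq1)
  have hρr : ρ < r := lt_of_lt_of_le h2 (min_le_left _ _)
  have hρ1 : ρ < 1 := lt_of_lt_of_le h2 (min_le_right _ _)
  have hρ0 : 0 < ρ := lt_trans (by positivity) h1
  obtain ⟨C, hC, n1, hn1⟩ := idn_upper ρ h1 hρ1.le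
  obtain ⟨n2, hn2⟩ := idn_lower ρ h1
  obtain ⟨n3, hn3⟩ := decayE 0 (C + 1) ρ r hρ0.le hρr
  filter_upwards [eventually_ge_atTop (n1 + n2 + n3)] with n hn
  have a1 := hn1 n (by omega)
  have a2 := hn2 n (by omega)
  have a3 := hn3 n (by omega)
  have hf := f_pos n
  rw [pow_zero, mul_one] at a3
  have hp : 0 < ρ ^ n := by positivity
  have hCp : 0 ≤ C * ρ ^ n := by positivity
  rw [abs_le]
  constructor
  · have h3 : 1 - ρ ^ n ≤ (idn n : ℝ) / f n := by rwa [le_div_iff₀ hf]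
    nlinarith
  · have h3 : (idn n : ℝ) / f n ≤ 1 + C * ρ ^ n := by rwa [div_le_iff₀ hf]
    nlinarith

end Pool.Agent.Y415.ID
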