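import Pool.Agent.Idem.Closed
import Pool.Agent.Y415.ID.Exp

/-!
The closed form of the number of idempotent Boolean matrices with the error `O(1 / n)`.
-/

set_option autoImplicit false
open Finset Filter Topology

namespace Pool.Agent.Y415.ID

open IdemCount IdemCount.Clo

theorem wallis (m : ℕ) :
    ((2 * m).choose m : ℝ) ^ 2 * ((2 * m + 1) * Real.Wallis.W m) = 16 ^ m := by
  rw [Real.Wallis.W_eq_factorial_ratio]
  have hfac : ((2 * m).choose m : ℝ) * ((m.factorial : ℝ) * m.factorial) =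
      ((2 * m).factorial : ℝ) := by
    have h := Nat.choose_mul_factorial_mul_factorial (by omega : m ≤ 2 * m)
    have h2 : 2 * m - m = m := by omega
    rw [h2, mul_assoc] at h
    exact_mod_cast h
  rw [← hfac]
  have h16 : (16 : ℝ) ^ m = 2 ^ (4 * m) := by rw [pow_mul]; norm_num
  rw [h16]
  have h1 : (m.factorial : ℝ) ≠ 0 := by positivity
  have h2 : ((2 * m).choose m : ℝ) ≠ 0 := by
    exact_mod_cast (Nat.choose_pos (by omega : m ≤ 2 * m)).ne'
  field_simp

/-- `u = binom(2m, m)² / 16^m` -/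
noncomputable def uu (m : ℕ) : ℝ := ((2 * m).choose m : ℝ) ^ 2 / 16 ^ m

theorem uu_pos (m : ℕ) : 0 < uu m := by
  unfold uu
  have : (0 : ℝ) < ((2 * m).choose m : ℝ) := by
    exact_mod_cast Nat.choose_pos (by omega : m ≤ 2 * m)
  positivity

theorem uu_W (m : ℕ) : uu m * ((2 * m + 1) * Real.Wallis.W m) = 1 := by
  unfold uu
  rw [div_mul_eq_mul_div, wallis, div_self (by positivity)]

theorem uu_low (m : ℕ) : 1 ≤ uu m * (2 * m + 1) * (Real.pi / 2) := by
  have h := uu_W m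
  have h2 := Real.Wallis.W_le m
  have h3 := uu_pos m
  calc (1 : ℝ) = uu m * ((2 * m + 1) * Real.Wallis.W m) := h.symm
    _ = uu m * (2 * m + 1) * Real.Wallis.W m := by ring
    _ ≤ _ := mul_le_mul_of_nonneg_left h2 (by positivity)

theorem uu_up (m : ℕ) : uu m * (2 * m + 1) ^ 2 * (Real.pi / 2) ≤ 2 * m + 2 := by
  have h := uu_W m
  have h2 := Real.Wallis.le_W m
  have h3 := uu_pos m
  have h4 : (0 : ℝ) < 2 * m + 2 := by positivity
  have h5 : uu m * (2 * m + 1) * (((2 : ℝ) * m + 1) / (2 * m + 2) * (Real.pi / 2)) ≤ 1 := by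
    calc _ ≤ uu m * (2 * m + 1) * Real.Wallis.W m :=
          mul_le_mul_of_nonneg_left h2 (by positivity)
      _ = uu m * ((2 * m + 1) * Real.Wallis.W m) := by ring
      _ = 1 := h
  have h6 : uu m * (2 * m + 1) * (((2 : ℝ) * m + 1) / (2 * m + 2) * (Real.pi / 2)) =
      uu m * (2 * m + 1) ^ 2 * (Real.pi / 2) / (2 * m + 2) := by
    field_simp
  rw [h6, div_le_one h4] at h5
  exact h5

/-- the central binomial coefficient, squared and normalised -/
noncomputable def cc (n m : ℕ) : ℝ := (n.choose m : ℝ) * Real.sqrt (n : ℝ) / 2 ^ n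

theorem cc_nonneg (n m : ℕ) : 0 ≤ cc n m := by unfold cc; positivity

theorem cc_sq (n m : ℕ) : cc n m ^ 2 = (n.choose m : ℝ) ^ 2 * n / 4 ^ n := by
  unfold cc
  rw [div_pow, mul_pow, Real.sq_sqrt (by positivity), ← pow_mul, mul_comm n 2, pow_mul]
  norm_num

theorem cc_even (m : ℕ) : cc (2 * m + 0) m ^ 2 = uu m * (2 * m) := by
  rw [cc_sq, add_zero]
  unfold uu
  rw [pow_mul]
  push_cast
  norm_num
  ring

theorem cc_odd (m : ℕ) : cc (2 * m + 1) m ^ 2 =
    uu m * (2 * m + 1) ^ 3 / (4 * (m + 1) ^ 2) := by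
  rw [cc_sq]
  have hc : ((2 * m + 1).choose m : ℝ) * (m + 1) = (2 * m + 1) * ((2 * m).choose m : ℝ) := by
    have h5 := Nat.add_one_mul_choose_eq (2 * m) m
    have h6 : (2 * m + 1).choose (m + 1) = (2 * m + 1).choose m :=
      Nat.choose_symm_of_eq_add (by omega)
    rw [h6] at h5
    have h7 : ((2 * m + 1 : ℕ) : ℝ) * ((2 * m).choose m : ℝ) =
      ((2 * m + 1).choose m : ℝ) * ((m + 1 : ℕ) : ℝ) := by exact_mod_cast h5
    push_cast at h7
    linarith
  have hc2 : ((2 * m + 1).choose m : ℝ) = (2 * m + 1) * ((2 * m).choose m : ℝ) / (m + 1) := by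
    rw [eq_div_iff (by positivity)]
    exact hc
  rw [hc2, pow_succ 4, pow_mul]
  unfold uu
  have : ((4 : ℝ) ^ 2) ^ m = 16 ^ m := by norm_num
  rw [this]
  push_cast
  field_simp

theorem cc_rate (e m : ℕ) (he : e ≤ 1) (hn : 1 ≤ 2 * m + e) :
    (1 - 1 / ((2 * m + e : ℕ) : ℝ)) * Real.sqrt (2 / Real.pi) ≤ cc (2 * m + e) m ∧
      cc (2 * m + e) m ≤ Real.sqrt (2 / Real.pi) := by
  have hpi := Real.pi_pos
  have hn' : (1 : ℝ) ≤ ((2 * m + e : ℕ) : ℝ) := by exact_mod_cast hn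
  have h1n : 0 ≤ 1 - 1 / ((2 * m + e : ℕ) : ℝ) := by
    rw [sub_nonneg, div_le_one (by positivity)]
    exact hn'
  have hl := uu_low m
  have hu := uu_up m
  have hup := uu_pos m
  have key : (1 - 1 / ((2 * m + e : ℕ) : ℝ)) ^ 2 ≤ cc (2 * m + e) m ^ 2 * (Real.pi / 2) ∧
      cc (2 * m + e) m ^ 2 * (Real.pi / 2) ≤ 1 := by
    interval_cases e
    · have hm : (1 : ℝ) ≤ m := by exact_mod_cast (by omega : 1 ≤ m)
      rw [cc_even]
      set v := uu m * (Real.pi / 2) with hv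
      have hl' : 1 ≤ v * (2 * m + 1) := by rw [hv]; linarith
      have hu' : v * (2 * m + 1) ^ 2 ≤ 2 * m + 2 := by rw [hv]; linarith
      have hv0 : 0 < v := by rw [hv]; positivity
      have e1 : uu m * (2 * m) * (Real.pi / 2) = v * (2 * m) := by rw [hv]; ring
      rw [e1]
      constructor
      · push_cast
        rw [add_zero]
        have h2m : (0 : ℝ) < 2 * m := by linarith
        have h3 : (1 - 1 / (2 * (m : ℝ))) ^ 2 * (2 * m + 1) ≤ 2 * m := by
          have : (1 - 1 / (2 * (m : ℝ))) ^ 2 * (2 * m + 1) =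
              (2 * (m : ℝ)) - 1 - (1 / (2 * m)) + (1 / (2 * m)) ^ 2 := by
            field_simp
            ring
          rw [this]
          have h4 : 0 < 1 / (2 * (m : ℝ)) := by positivity
          have h5 : 1 / (2 * (m : ℝ)) ≤ 1 := by
            rw [div_le_one h2m]
            linarith
          nlinarith
        have h4 : (0 : ℝ) < 2 * m + 1 := by linarith
        have h5 : (1 - 1 / (2 * (m : ℝ))) ^ 2 * (2 * m + 1) ≤ v * (2 * m) * (2 * m + 1) := by
          nlinarith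
        exact le_of_mul_le_mul_right h5 h4
      · have h4 : (0 : ℝ) < (2 * m + 1) ^ 2 := by positivity
        have h5 : v * (2 * m) * (2 * m + 1) ^ 2 ≤ 1 * (2 * m + 1) ^ 2 := by
          nlinarith
        exact le_of_mul_le_mul_right h5 h4
    · have hm : (0 : ℝ) ≤ m := by positivity
      rw [cc_odd]
      set v := uu m * (Real.pi / 2) with hv
      have hl' : 1 ≤ v * (2 * m + 1) := by rw [hv]; linarith
      have hu' : v * (2 * m + 1) ^ 2 ≤ 2 * m + 2 := by rw [hv]; linarith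
      have hv0 : 0 < v := by rw [hv]; positivity
      have h4 : (0 : ℝ) < 4 * (m + 1) ^ 2 := by positivity
      have e1 : uu m * (2 * m + 1) ^ 3 / (4 * (m + 1) ^ 2) * (Real.pi / 2) =
          v * (2 * m + 1) ^ 3 / (4 * (m + 1) ^ 2) := by rw [hv]; ring
      rw [e1]
      constructor
      · push_cast
        rw [le_div_iff₀ h4]
        have h6 : (0 : ℝ) < 2 * m + 1 := by positivity
        have h7 : (1 - 1 / (2 * (m : ℝ) + 1)) * (2 * m + 1) = 2 * m := by
          field_simp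
          ring
        have h8 : (1 - 1 / (2 * (m : ℝ) + 1)) * (2 * (m + 1)) ≤ 2 * m + 1 := by
          have h9 : (1 - 1 / (2 * (m : ℝ) + 1)) ≤ 1 := by
            have : 0 < 1 / (2 * (m : ℝ) + 1) := by positivity
            linarith
          nlinarith
        have h9 : 0 ≤ (1 - 1 / (2 * (m : ℝ) + 1)) * (2 * (m + 1)) := by
          have : 0 ≤ 1 - 1 / (2 * (m : ℝ) + 1) := by
            rw [sub_nonneg, div_le_one h6]
            linarith
          positivity
        calc (1 - 1 / (2 * (m : ℝ) + 1)) ^ 2 * (4 * (m + 1) ^ 2)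
            = ((1 - 1 / (2 * (m : ℝ) + 1)) * (2 * (m + 1))) ^ 2 := by
              rw [mul_pow, mul_pow]
              norm_num
          _ ≤ (2 * (m : ℝ) + 1) ^ 2 := pow_le_pow_left₀ h9 h8 2
          _ = 1 * (2 * (m : ℝ) + 1) ^ 2 := by ring
          _ ≤ v * (2 * (m : ℝ) + 1) * (2 * (m : ℝ) + 1) ^ 2 :=
              mul_le_mul_of_nonneg_right hl' (by positivity)
          _ = v * (2 * (m : ℝ) + 1) ^ 3 := by ring
      · rw [div_le_one h4]
        calc v * (2 * (m : ℝ) + 1) ^ 3 = v * (2 * (m : ℝ) + 1) ^ 2 * (2 * (m : ℝ) + 1) := by ring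
          _ ≤ (2 * (m : ℝ) + 2) * (2 * (m : ℝ) + 1) :=
              mul_le_mul_of_nonneg_right hu' (by positivity)
          _ ≤ 4 * ((m : ℝ) + 1) ^ 2 := by nlinarith
  have hs : Real.sqrt (2 / Real.pi) ^ 2 = 2 / Real.pi := Real.sq_sqrt (by positivity)
  have hc0 := cc_nonneg (2 * m + e) m
  constructor
  · rw [← pow_le_pow_iff_left₀ (mul_nonneg h1n (Real.sqrt_nonneg _)) hc0 two_ne_zero, mul_pow, hs]
    calc (1 - 1 / ((2 * m + e : ℕ) : ℝ)) ^ 2 * (2 / Real.pi)
        ≤ (cc (2 * m + e) m ^ 2 * (Real.pi / 2)) * (2 / Real.pi) :=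
          mul_le_mul_of_nonneg_right key.1 (by positivity)
      _ = _ := by field_simp
  · rw [← pow_le_pow_iff_left₀ hc0 (Real.sqrt_nonneg _) two_ne_zero, hs]
    calc cc (2 * m + e) m ^ 2 = (cc (2 * m + e) m ^ 2 * (Real.pi / 2)) * (2 / Real.pi) := by
          field_simp
      _ ≤ 1 * (2 / Real.pi) := mul_le_mul_of_nonneg_right key.2 (by positivity)
      _ = _ := one_mul _

/-- binomial coefficients near the middle -/
theorem choose_low (e m j : ℕ) (he : e ≤ 1) :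
    ((2 * m + e).choose m : ℝ) * (1 - (j : ℝ) ^ 2 / (m + 1)) ≤
      ((2 * m + e).choose (m + j) : ℝ) := by
  induction j with
  | zero => simp
  | succ j ih =>
    have h2 := Nat.choose_succ_right_eq (2 * m + e) (m + j)
    have h3 : (((2 * m + e).choose (m + j + 1) : ℕ) : ℝ) * ((m : ℝ) + j + 1) =
        ((2 * m + e).choose (m + j) : ℝ) * ((2 * m + e - (m + j) : ℕ) : ℝ) := by
      exact_mod_cast h2
    have h4 : (m : ℝ) + e - j ≤ ((2 * m + e - (m + j) : ℕ) : ℝ) := by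
      have h5 : 2 * m + e ≤ (2 * m + e - (m + j)) + (m + j) := by omega
      have h6 : ((2 * m + e : ℕ) : ℝ) ≤ (((2 * m + e - (m + j)) + (m + j) : ℕ) : ℝ) := by
        exact_mod_cast h5
      rw [Nat.cast_add (2 * m + e - (m + j))] at h6
      push_cast at h6 ⊢
      linarith
    have h5 : ((2 * m + e).choose (m + j) : ℝ) ≤ ((2 * m + e).choose m : ℝ) := by
      have h6 := Nat.choose_le_middle (m + j) (2 * m + e)
      have h7 : (2 * m + e) / 2 = m := by omega
      rw [h7] at h6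
      exact_mod_cast h6
    have heR : (e : ℝ) ≤ 1 := by exact_mod_cast he
    have he0 : (0 : ℝ) ≤ e := by positivity
    rw [← add_assoc m j 1]
    have hA0 : (0 : ℝ) ≤ ((2 * m + e).choose (m + j) : ℝ) := by positivity
    have hN0 : (0 : ℝ) < ((2 * m + e).choose m : ℝ) := by
      exact_mod_cast Nat.choose_pos (by omega : m ≤ 2 * m + e)
    generalize ((2 * m + e).choose (m + j) : ℝ) = A0 at *
    generalize (((2 * m + e).choose (m + j + 1) : ℕ) : ℝ) = A1 at *
    generalize ((2 * m + e).choose m : ℝ) = N at *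
    have hpos : (0 : ℝ) < (m : ℝ) + j + 1 := by positivity
    have hpos2 : (0 : ℝ) < (m : ℝ) + 1 := by positivity
    have h6 : A0 * ((m : ℝ) + e - j) ≤ A1 * ((m : ℝ) + j + 1) := by
      rw [h3]
      exact mul_le_mul_of_nonneg_left h4 hA0
    have hj0 : (0 : ℝ) ≤ j := by positivity
    have h7 : A0 * (2 * j + 1 - e) / ((m : ℝ) + j + 1) ≤ N * (2 * j + 1) / (m + 1) := by
      apply div_le_div₀ (by positivity)
      · apply mul_le_mul h5 (by linarith) (by linarith) hN0.le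
      · exact hpos2
      · linarith
    have h8 : A0 - A0 * (2 * j + 1 - e) / ((m : ℝ) + j + 1) ≤ A1 := by
      have h9 : A0 - A0 * (2 * j + 1 - e) / ((m : ℝ) + j + 1) =
          A0 * ((m : ℝ) + e - j) / ((m : ℝ) + j + 1) := by
        field_simp
        ring
      rw [h9, div_le_iff₀ hpos]
      exact h6
    have h9 : N * (1 - ((j + 1 : ℕ) : ℝ) ^ 2 / (m + 1)) =
        N * (1 - (j : ℝ) ^ 2 / (m + 1)) - N * (2 * j + 1) / (m + 1) := by
      push_cast
      field_simp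
      ring
    rw [h9]
    linarith

theorem cz_low (e m : ℕ) (he : e ≤ 1) (j : ℤ) :
    ((2 * m + e).choose m : ℝ) * (1 - ((j.natAbs : ℝ) + 1) ^ 2 / (m + 1)) ≤
      cz (2 * m + e) (m + j) := by
  have hN0 : (0 : ℝ) < ((2 * m + e).choose m : ℝ) := by
    exact_mod_cast Nat.choose_pos (by omega : m ≤ 2 * m + e)
  have hpos2 : (0 : ℝ) < (m : ℝ) + 1 := by positivity
  have mono : ∀ a b : ℝ, 0 ≤ a → a ≤ b → ((2 * m + e).choose m : ℝ) * (1 - b ^ 2 / (m + 1)) ≤
      ((2 * m + e).choose m : ℝ) * (1 - a ^ 2 / (m + 1)) := by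
    intro a b ha hab
    apply mul_le_mul_of_nonneg_left _ hN0.le
    have h1 : a ^ 2 ≤ b ^ 2 := pow_le_pow_left₀ ha hab 2
    have h2 : a ^ 2 / ((m : ℝ) + 1) ≤ b ^ 2 / (m + 1) := div_le_div_of_nonneg_right h1 hpos2.le
    linarith
  rcases Int.eq_nat_or_neg j with ⟨i, rfl | rfl⟩
  · have h1 := choose_low e m i he
    have h2 := mono i ((i : ℝ) + 1) (by positivity) (by linarith)
    unfold cz
    rw [if_pos (by omega)]
    have h3 : ((m : ℤ) + (i : ℤ)).toNat = m + i := by omega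
    rw [h3, Int.natAbs_natCast]
    exact h2.trans h1
  · rw [Int.natAbs_neg, Int.natAbs_natCast]
    rcases le_or_gt i m with him | him
    · have h1 := choose_low e m (e + i) he
      have heR : (e : ℝ) ≤ 1 := by exact_mod_cast he
      have h2 := mono ((e + i : ℕ) : ℝ) ((i : ℝ) + 1) (by positivity) (by push_cast; linarith)
      unfold cz
      rw [if_pos (by omega)]
      have h3 : (2 * m + e).choose (m + (e + i)) = (2 * m + e).choose ((m : ℤ) + -(i : ℤ)).toNat := by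
        apply Nat.choose_symm_of_eq_add
        omega
      rw [← h3]
      exact h2.trans h1
    · unfold cz
      rw [if_neg (by omega)]
      have h1 : (m : ℝ) + 1 ≤ (i : ℝ) + 1 := by
        have : (m : ℝ) ≤ i := by exact_mod_cast him.le
        linarith
      have h2 : (1 : ℝ) ≤ ((i : ℝ) + 1) ^ 2 / (m + 1) := by
        rw [le_div_iff₀ hpos2]
        have : (0 : ℝ) ≤ m := by positivity
        nlinarith
      nlinarith

theorem sq_half_summable :
    Summable (fun j : ℤ => ((j.natAbs : ℝ) + 1) ^ 2 * (1 / 2 : ℝ) ^ j.natAbs) := by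
  have h2 := summable_pow_mul_geometric_of_norm_lt_one 2 (r := (1 / 2 : ℝ)) (by norm_num)
  have h1 := summable_pow_mul_geometric_of_norm_lt_one 1 (r := (1 / 2 : ℝ)) (by norm_num)
  have h0 := summable_pow_mul_geometric_of_norm_lt_one 0 (r := (1 / 2 : ℝ)) (by norm_num)
  have h : Summable (fun n : ℕ => ((n : ℝ) + 1) ^ 2 * (1 / 2 : ℝ) ^ n) := by
    refine ((h2.add (h1.mul_left 2)).add h0).congr fun n => ?_
    ring
  apply Summable.of_nat_of_neg
  · simpa using h
  · simpa using h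

theorem sq_ph_summable (c : ℝ) : Summable (fun j : ℤ => ((j.natAbs : ℝ) + 1) ^ 2 * ph c j) := by
  refine Summable.of_nonneg_of_le (fun j => mul_nonneg (by positivity) (ph_pos c j).le)
    (fun j => ?_) (sq_half_summable.mul_left ((2 : ℝ) ^ (|c| + 1 / 4)))
  calc ((j.natAbs : ℝ) + 1) ^ 2 * ph c j
      ≤ ((j.natAbs : ℝ) + 1) ^ 2 * ((2 : ℝ) ^ (|c| + 1 / 4) * (1 / 2 : ℝ) ^ j.natAbs) :=
        mul_le_mul_of_nonneg_left (ph_le c j) (by positivity)
    _ = _ := by ring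

theorem sq_wt_summable (c : ℝ) : Summable (fun j : ℤ => ((j.natAbs : ℝ) + 1) ^ 2 * wt c j) := by
  refine (((sq_ph_summable (c - 1)).add (sq_ph_summable c)).add (sq_ph_summable (c + 1))).congr
    fun j => ?_
  unfold wt
  ring

/-- the normalised sum over the middle -/
noncomputable def FF (e m : ℕ) : ℝ :=
  f (2 * m + e) / ((2 : ℝ) ^ (((2 * m + e : ℕ) : ℝ) ^ 2 / 4 + (2 * m + e : ℕ)) *
      ((2 * m + e).choose m : ℝ))

theorem FF_rate (e : ℕ) (he : e ≤ 1) : ∃ K : ℝ, 0 ≤ K ∧ ∀ m : ℕ,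
    3 * (∑' j, ph (-(e : ℝ) / 2) j) - K / (m + 1) ≤ FF e m ∧
      FF e m ≤ 3 * ∑' j, ph (-(e : ℝ) / 2) j := by
  refine ⟨∑' j : ℤ, ((j.natAbs : ℝ) + 1) ^ 2 * wt (-(e : ℝ) / 2) j,
    tsum_nonneg fun j => mul_nonneg (by positivity) (wt_pos _ j).le, fun m => ?_⟩
  have hc : (0 : ℝ) < ((2 * m + e).choose m : ℝ) := by
    exact_mod_cast Nat.choose_pos (by omega : m ≤ 2 * m + e)
  have h2 : (0 : ℝ) < (2 : ℝ) ^ (((2 * m + e : ℕ) : ℝ) ^ 2 / 4 + (2 * m + e : ℕ)) :=
    Real.rpow_pos_of_pos (by norm_num) _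
  have hpos2 : (0 : ℝ) < (m : ℝ) + 1 := by positivity
  have hF : FF e m = ∑' j : ℤ,
      cz (2 * m + e) (m + j) / ((2 * m + e).choose m : ℝ) * wt (-(e : ℝ) / 2) j := by
    unfold FF
    rw [Clo.f_eq, mul_div_mul_left _ _ h2.ne', ← tsum_div_const]
    refine tsum_congr fun j => ?_
    ring
  have hle1 : ∀ j : ℤ, cz (2 * m + e) (m + j) / ((2 * m + e).choose m : ℝ) ≤ 1 := by
    intro j
    have h2 : (2 * m + e) / 2 = m := by omega
    have h3 := cz_le (2 * m + e) (m + j)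
    rw [h2] at h3
    rw [div_le_one hc]
    exact h3
  have hge : ∀ j : ℤ, 1 - ((j.natAbs : ℝ) + 1) ^ 2 / (m + 1) ≤
      cz (2 * m + e) (m + j) / ((2 * m + e).choose m : ℝ) := by
    intro j
    rw [le_div_iff₀ hc, mul_comm]
    exact cz_low e m he j
  have hs1 : Summable (fun j : ℤ =>
      cz (2 * m + e) (m + j) / ((2 * m + e).choose m : ℝ) * wt (-(e : ℝ) / 2) j) := by
    refine Summable.of_nonneg_of_le (fun j => mul_nonneg (div_nonneg (cz_nonneg _ _) hc.le)
      (wt_pos _ j).le) (fun j => ?_) (wt_summable (-(e : ℝ) / 2))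
    calc _ ≤ 1 * wt (-(e : ℝ) / 2) j := mul_le_mul_of_nonneg_right (hle1 j) (wt_pos _ j).le
      _ = _ := one_mul _
  rw [← wt_tsum, hF]
  constructor
  · rw [← tsum_div_const, ← (wt_summable (-(e : ℝ) / 2)).tsum_sub
      ((sq_wt_summable (-(e : ℝ) / 2)).div_const _)]
    refine Summable.tsum_le_tsum (fun j => ?_) ((wt_summable (-(e : ℝ) / 2)).sub
      ((sq_wt_summable (-(e : ℝ) / 2)).div_const _)) hs1
    calc wt (-(e : ℝ) / 2) j - ((j.natAbs : ℝ) + 1) ^ 2 * wt (-(e : ℝ) / 2) j / (m + 1)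
        = (1 - ((j.natAbs : ℝ) + 1) ^ 2 / (m + 1)) * wt (-(e : ℝ) / 2) j := by ring
      _ ≤ _ := mul_le_mul_of_nonneg_right (hge j) (wt_pos _ j).le
  · refine Summable.tsum_le_tsum (fun j => ?_) hs1 (wt_summable (-(e : ℝ) / 2))
    calc _ ≤ 1 * wt (-(e : ℝ) / 2) j := mul_le_mul_of_nonneg_right (hle1 j) (wt_pos _ j).le
      _ = _ := one_mul _

theorem fg_eq (e m : ℕ) (he : e ≤ 1) (hn1 : 1 ≤ 2 * m + e) :
    f (2 * m + e) / g (2 * m + e) = (FF e m / (3 * ∑' j, ph (-(e : ℝ) / 2) j)) *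
      (cc (2 * m + e) m / Real.sqrt (2 / Real.pi)) := by
  have hθ := theta_pos (-(e : ℝ) / 2)
  set θ := ∑' j, ph (-(e : ℝ) / 2) j with hθd
  have hs : 0 < Real.sqrt (2 / Real.pi) := Real.sqrt_pos.2 (by positivity)
  unfold g FF cc
  rw [theta_eq e m he, ← hθd]
  set n : ℕ := 2 * m + e with hn
  have hn0 : (0 : ℝ) < n := by
    have : 0 < n := by omega
    exact_mod_cast this
  have hc : (0 : ℝ) < (n.choose m : ℝ) := by
    exact_mod_cast Nat.choose_pos (by omega : m ≤ n)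
  have e1 : Real.sqrt (2 / (Real.pi * n)) = Real.sqrt (2 / Real.pi) / Real.sqrt n := by
    rw [← Real.sqrt_div (by positivity), div_div]
  have e2 : (2 : ℝ) ^ ((n : ℝ) ^ 2 / 4 + 2 * n) = (2 : ℝ) ^ ((n : ℝ) ^ 2 / 4 + n) * 2 ^ n := by
    rw [← Real.rpow_natCast (2 : ℝ) n, ← Real.rpow_add (by norm_num)]
    congr 1
    ring
  rw [e1, e2]
  have h5 : (0 : ℝ) < (2 : ℝ) ^ ((n : ℝ) ^ 2 / 4 + n) := Real.rpow_pos_of_pos (by norm_num) _
  have h6 : 0 < Real.sqrt (n : ℝ) := Real.sqrt_pos.2 hn0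
  have h7 : (0 : ℝ) < 2 ^ n := by positivity
  field_simp

theorem fg_rate_e (e : ℕ) (he : e ≤ 1) : ∃ C : ℝ, 0 ≤ C ∧ ∀ m : ℕ, 1 ≤ 2 * m + e →
    1 - C / ((2 * m + e : ℕ) : ℝ) ≤ f (2 * m + e) / g (2 * m + e) ∧
      f (2 * m + e) / g (2 * m + e) ≤ 1 := by
  obtain ⟨K, hK, h⟩ := FF_rate e he
  have hθ := theta_pos (-(e : ℝ) / 2)
  set θ := ∑' j, ph (-(e : ℝ) / 2) j with hθd
  refine ⟨2 * (K / (3 * θ)) + 1, by positivity, fun m hn => ?_⟩
  obtain ⟨h1, h2⟩ := h m
  obtain ⟨h3, h4⟩ := cc_rate e m he hn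
  rw [fg_eq e m he hn, ← hθd]
  have hs : 0 < Real.sqrt (2 / Real.pi) := Real.sqrt_pos.2 (by positivity)
  have h3θ : 0 < 3 * θ := by positivity
  have hn0 : (0 : ℝ) < ((2 * m + e : ℕ) : ℝ) := by exact_mod_cast (by omega : 0 < 2 * m + e)
  have hm0 : (0 : ℝ) < (m : ℝ) + 1 := by positivity
  have heR : (e : ℝ) ≤ 1 := by exact_mod_cast he
  have a1 : FF e m / (3 * θ) ≤ 1 := by rw [div_le_one h3θ]; exact h2
  have a2 : 1 - 2 * (K / (3 * θ)) / ((2 * m + e : ℕ) : ℝ) ≤ FF e m / (3 * θ) := by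
    have b1 : (3 * θ - K / (m + 1)) / (3 * θ) ≤ FF e m / (3 * θ) :=
      div_le_div_of_nonneg_right h1 h3θ.le
    have b2 : (3 * θ - K / (m + 1)) / (3 * θ) = 1 - (K / (3 * θ)) / (m + 1) := by
      field_simp
    have b3 : (K / (3 * θ)) / ((m : ℝ) + 1) ≤ 2 * (K / (3 * θ)) / ((2 * m + e : ℕ) : ℝ) := by
      rw [div_le_div_iff₀ hm0 hn0]
      have b4 : ((2 * m + e : ℕ) : ℝ) ≤ 2 * (m + 1) := by push_cast; linarith
      have b5 : 0 ≤ K / (3 * θ) := by positivity
      nlinarith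
    linarith
  have a3 : cc (2 * m + e) m / Real.sqrt (2 / Real.pi) ≤ 1 := by rw [div_le_one hs]; exact h4
  have a4 : 1 - 1 / ((2 * m + e : ℕ) : ℝ) ≤ cc (2 * m + e) m / Real.sqrt (2 / Real.pi) := by
    rw [le_div_iff₀ hs]
    exact h3
  have hff : 0 ≤ FF e m := by
    unfold FF
    have := f_pos (2 * m + e)
    positivity
  have a5 : 0 ≤ FF e m / (3 * θ) := by positivity
  have a6 : 0 ≤ cc (2 * m + e) m / Real.sqrt (2 / Real.pi) :=
    div_nonneg (cc_nonneg _ _) hs.le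
  generalize FF e m / (3 * θ) = x at *
  generalize cc (2 * m + e) m / Real.sqrt (2 / Real.pi) = y at *
  constructor
  · rw [add_div]
    nlinarith [mul_nonneg (sub_nonneg.2 a1) (sub_nonneg.2 a3)]
  · exact mul_le_one₀ a1 a6 a3

/-- the closed form of the sum, with the error `O(1 / n)` -/
theorem fg_rate : ∃ C : ℝ, 0 ≤ C ∧ ∀ n : ℕ, 1 ≤ n →
    1 - C / (n : ℝ) ≤ f n / g n ∧ f n / g n ≤ 1 := by
  obtain ⟨C0, h0, h0'⟩ := fg_rate_e 0 (by norm_num)
  obtain ⟨C1, h1, h1'⟩ := fg_rate_e 1 (by norm_num)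
  refine ⟨C0 + C1, by positivity, fun n hn => ?_⟩
  have hn0 : (0 : ℝ) < n := by exact_mod_cast (by omega : 0 < n)
  rcases Nat.even_or_odd' n with ⟨m, hm | hm⟩
  · obtain ⟨a, b⟩ := h0' m (by omega)
    rw [add_zero, ← hm] at a b
    refine ⟨le_trans ?_ a, b⟩
    have : C0 / (n : ℝ) ≤ (C0 + C1) / n := div_le_div_of_nonneg_right (by linarith) hn0.le
    linarith
  · obtain ⟨a, b⟩ := h1' m (by omega)
    rw [← hm] at a b
    refine ⟨le_trans ?_ a, b⟩
    have : C1 / (n : ℝ) ≤ (C0 + C1) / n := div_le_div_of_nonneg_right (by linarith) hn0.le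
    linarith

end Pool.Agent.Y415.ID
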